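import Pool.Agent.H26.ES.Targets

/-!
# Few alive points on lines with a large mean square: row MVV (helper30)
-/

set_option autoImplicit false

open Finset MeasureTheory

namespace Pool.Agent.H30.EST

open Pool.Agent.H24.CL Pool.Agent.H24.LV Pool.Agent.H26.ES

/-! ### basic facts -/

theorem cont_phi' (k q b : ℕ) : Continuous (phi q b : X k → X k) := by
  refine continuous_pi fun i => ?_
  change Continuous fun a : X k => ∑ j : Fin k,
    (Nat.choose (j.val + 1) (i.val + 1) * b ^ (j.val - i.val) * q ^ (i.val + 1)) • a j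
  exact continuous_finsetSum _ fun j _ => (continuous_apply j).nsmul _

theorem cont_e' : Continuous (e : UnitAddCircle → ℂ) := by
  unfold e
  exact continuous_subtype_val.comp AddCircle.continuous_toCircle

theorem cont_u' (k N : ℕ) : Continuous (u N : X k → ℂ) := by
  unfold u f
  refine Continuous.div_const (continuous_finsetSum _ fun n _ => ?_) _
  refine cont_e'.comp ?_
  unfold P
  exact continuous_finsetSum _ fun j _ => (continuous_apply j).nsmul _

theorem u_le' (k N : ℕ) (hN : 1 ≤ N) (a : X k) : ‖u N a‖ ≤ 1 := by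
  unfold u f
  have hN0 : (0 : ℝ) < N := by exact_mod_cast hN
  rw [norm_div, Complex.norm_natCast, div_le_one hN0]
  refine (norm_sum_le _ _).trans ?_
  have : ∀ n ∈ range N, ‖e (P a n)‖ ≤ 1 := by
    intro n _
    unfold e
    rw [Circle.norm_coe]
  refine (Finset.sum_le_sum this).trans ?_
  simp

theorem hd_eq {k : ℕ} (q : ℕ) (W : Set (X k)) (a : X k) :
    hd q W a = (1 / (q : ℝ)) * ∑ b ∈ range q, W.indicator (fun _ => (1 : ℝ)) (phi q b a) := by
  classical
  unfold hd pos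
  rw [Finset.card_filter]
  push_cast
  rw [div_eq_mul_inv, mul_comm, one_div]
  congr 1

theorem meas_hd' {k : ℕ} (q : ℕ) {W : Set (X k)} (hW : MeasurableSet W) :
    Measurable fun a : X k => hd q W a := by
  have h1 : (fun a : X k => hd q W a) = fun a => (1 / (q : ℝ)) *
      ∑ b ∈ range q, W.indicator (fun _ => (1 : ℝ)) (phi q b a) := by
    funext a
    exact hd_eq q W a
  rw [h1]
  refine measurable_const.mul (Finset.measurable_fun_sum _ fun b _ => ?_)
  exact (measurable_const.indicator hW).comp (cont_phi' k q b).measurable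

theorem meas_VD' {k : ℕ} (q N : ℕ) : Measurable fun a : X k => VD q N a := by
  unfold VD
  refine measurable_const.mul (Finset.measurable_fun_sum _ fun b _ => ?_)
  exact (((cont_u' k N).comp (cont_phi' k q b)).norm.measurable).pow_const 2

theorem VD_le {k : ℕ} (q N : ℕ) (hN : 1 ≤ N) (a : X k) : VD q N a ≤ 1 := by
  unfold VD
  have h1 : ∑ x ∈ range q, ‖u N (phi q x a)‖ ^ 2 ≤ ∑ _x ∈ range q, (1 : ℝ) :=
    Finset.sum_le_sum fun x _ => by
      have := u_le' k N hN (phi q x a)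
      have h0 := norm_nonneg (u N (phi q x a))
      nlinarith
  rw [Finset.sum_const, Finset.card_range, nsmul_eq_mul, mul_one] at h1
  rcases Nat.eq_zero_or_pos q with h | h
  · subst h
    simp
  · have hq : (0 : ℝ) < q := by exact_mod_cast h
    rw [one_div, inv_mul_le_iff₀ hq, mul_one]
    exact h1

/-! ### layers -/

theorem geo4 (J : ℕ) : ∑ l ∈ range J, (3 : ℝ) * 4 ^ l = 4 ^ J - 1 := by
  induction J with
  | zero => simp
  | succ J ih => rw [Finset.sum_range_succ, ih, pow_succ]; ring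

theorem geo2 (J : ℕ) : ∑ l ∈ range J, ((1 : ℝ) / 2) ^ l = 2 - 2 * (1 / 2) ^ J := by
  induction J with
  | zero => simp
  | succ J ih => rw [Finset.sum_range_succ, ih, pow_succ]; ring

theorem geo2_le (J : ℕ) : ∑ l ∈ range J, ((1 : ℝ) / 2) ^ l < 2 := by
  rw [geo2]
  have : (0 : ℝ) < (1 / 2) ^ J := by positivity
  linarith

theorem layer (T x : ℝ) (hT : 0 < T) (hx : 0 ≤ x) (J : ℕ) (hJ : x < 2 ^ J * T) :
    x ^ 2 ≤ T ^ 2 + ∑ l ∈ range J, 3 * 4 ^ l * T ^ 2 *
      {y : ℝ | 2 ^ l * T ≤ y}.indicator (fun _ => (1 : ℝ)) x := by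
  induction J with
  | zero =>
    rw [pow_zero, one_mul] at hJ
    rw [Finset.sum_range_zero, add_zero]
    exact pow_le_pow_left₀ hx hJ.le 2
  | succ J ih =>
    by_cases h : x < 2 ^ J * T
    · refine (ih h).trans ?_
      rw [Finset.sum_range_succ]
      have : 0 ≤ 3 * 4 ^ J * T ^ 2 *
          {y : ℝ | 2 ^ J * T ≤ y}.indicator (fun _ => (1 : ℝ)) x :=
        mul_nonneg (by positivity) (Set.indicator_nonneg (fun _ _ => zero_le_one) _)
      linarith
    · push Not at h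
      have e1 : ∑ l ∈ range (J + 1), 3 * 4 ^ l * T ^ 2 *
          {y : ℝ | 2 ^ l * T ≤ y}.indicator (fun _ => (1 : ℝ)) x =
          ∑ l ∈ range (J + 1), 3 * 4 ^ l * T ^ 2 := by
        refine Finset.sum_congr rfl fun l hl => ?_
        have hlJ : l ≤ J := Nat.lt_succ_iff.1 (Finset.mem_range.1 hl)
        have h1 : (2 : ℝ) ^ l * T ≤ x := by
          refine le_trans (mul_le_mul_of_nonneg_right ?_ hT.le) h
          exact pow_le_pow_right₀ (by norm_num) hlJ
        rw [Set.indicator_of_mem (show x ∈ {y : ℝ | 2 ^ l * T ≤ y} from h1), mul_one]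
      rw [e1, ← Finset.sum_mul, geo4]
      have h2 : x ^ 2 ≤ (2 ^ (J + 1) * T) ^ 2 := pow_le_pow_left₀ hx hJ.le 2
      have h3 : ((2 : ℝ) ^ (J + 1) * T) ^ 2 = 4 ^ (J + 1) * T ^ 2 := by
        rw [mul_pow, ← pow_mul, mul_comm (J + 1) 2, pow_mul]
        norm_num
      rw [h3] at h2
      linarith

/-- the points of level `N` above `s` -/
def Ev (k N : ℕ) (s : ℝ) : Set (X k) := {w | s ≤ ‖u N w‖}

theorem meas_Ev (k N : ℕ) (s : ℝ) : MeasurableSet (Ev k N s) :=
  measurableSet_le measurable_const (cont_u' k N).norm.measurable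

theorem some_level {k : ℕ} (q N J : ℕ) (hq : 1 ≤ q) (hN : 1 ≤ N) (T : ℝ) (hT : 0 < T)
    (hJ : 1 < 2 ^ J * T) (a : X k) (h : 4 * T ^ 2 ≤ VD q N a) :
    ∃ l < J, (1 / 8 : ℝ) ^ l / 2 ≤ hd q (Ev k N (2 ^ l * T)) a := by
  by_contra hcon
  push Not at hcon
  have hq0 : (0 : ℝ) < q := by exact_mod_cast hq
  have h1 : VD q N a ≤ T ^ 2 + ∑ l ∈ range J, 3 * 4 ^ l * T ^ 2 *
      hd q (Ev k N (2 ^ l * T)) a := by
    have h2 : ∑ x ∈ range q, ‖u N (phi q x a)‖ ^ 2 ≤ ∑ x ∈ range q, (T ^ 2 +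
        ∑ l ∈ range J, 3 * 4 ^ l * T ^ 2 *
          (Ev k N (2 ^ l * T)).indicator (fun _ => (1 : ℝ)) (phi q x a)) := by
      refine Finset.sum_le_sum fun x _ => ?_
      have h3 := layer T ‖u N (phi q x a)‖ hT (norm_nonneg _) J
        (lt_of_le_of_lt (u_le' k N hN _) hJ)
      exact h3
    calc VD q N a = (1 / (q : ℝ)) * ∑ x ∈ range q, ‖u N (phi q x a)‖ ^ 2 := rfl
      _ ≤ (1 / (q : ℝ)) * ∑ x ∈ range q, (T ^ 2 + ∑ l ∈ range J, 3 * 4 ^ l * T ^ 2 *
          (Ev k N (2 ^ l * T)).indicator (fun _ => (1 : ℝ)) (phi q x a)) :=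
          mul_le_mul_of_nonneg_left h2 (by positivity)
      _ = T ^ 2 + ∑ l ∈ range J, 3 * 4 ^ l * T ^ 2 * hd q (Ev k N (2 ^ l * T)) a := by
          rw [Finset.sum_add_distrib, Finset.sum_const, Finset.card_range, nsmul_eq_mul, mul_add]
          congr 1
          · field_simp
          · rw [Finset.sum_comm, Finset.mul_sum]
            refine Finset.sum_congr rfl fun l _ => ?_
            rw [hd_eq, ← Finset.mul_sum]
            ring
  have h2 : ∑ l ∈ range J, 3 * 4 ^ l * T ^ 2 * hd q (Ev k N (2 ^ l * T)) a ≤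
      3 / 2 * T ^ 2 * ∑ l ∈ range J, ((1 : ℝ) / 2) ^ l := by
    rw [Finset.mul_sum]
    refine Finset.sum_le_sum fun l hl => ?_
    have h3 := (hcon l (Finset.mem_range.1 hl)).le
    calc 3 * 4 ^ l * T ^ 2 * hd q (Ev k N (2 ^ l * T)) a
        ≤ 3 * 4 ^ l * T ^ 2 * ((1 / 8 : ℝ) ^ l / 2) :=
          mul_le_mul_of_nonneg_left h3 (by positivity)
      _ = 3 / 2 * T ^ 2 * ((1 : ℝ) / 2) ^ l := by
          have : (4 : ℝ) ^ l * (1 / 8) ^ l = (1 / 2) ^ l := by
            rw [← mul_pow]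
            norm_num
          rw [← this]
          ring
  have h3 := geo2_le J
  have h4 : 0 < T ^ 2 := by positivity
  nlinarith

/-! ### one piece -/

/-- the pieces -/
def Pj {k : ℕ} (q N : ℕ) (A : Set (X k)) (s T : ℝ) (l : ℕ) : Set (X k) :=
  {a | a ∈ A ∧ VD q N a < 4 * s ∧ (1 / 8 : ℝ) ^ l / 2 ≤ hd q (Ev k N (2 ^ l * T)) a}

theorem meas_Pj {k : ℕ} (q N : ℕ) {A : Set (X k)} (hA : MeasurableSet A) (s T : ℝ) (l : ℕ) :
    MeasurableSet (Pj q N A s T l) := by
  have h1 : MeasurableSet {a : X k | VD q N a < 4 * s} :=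
    measurableSet_lt (meas_VD' q N) measurable_const
  have h2 : MeasurableSet {a : X k | (1 / 8 : ℝ) ^ l / 2 ≤ hd q (Ev k N (2 ^ l * T)) a} :=
    measurableSet_le measurable_const (meas_hd' q (meas_Ev k N _))
  exact hA.inter (h1.inter h2)

theorem one_piece (hNWT : T_NWT) (hTPU : T_TPU) (hTPM : T_TPM) {k : ℕ} (hk : 3 ≤ k)
    (CW : ℝ) (hCW : 1 ≤ CW)
    (hWT : ∀ (N : ℕ) (t : ℝ), 1 ≤ N → 0 < t →
      (N : ℝ) ^ (KN k) * t ^ (2 * KN k) * volume.real {a : X k | t ≤ ‖u N a‖} ≤ CW)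
    (q N : ℕ) (t m lam : ℝ) (A : Set (X k)) (hq : q.Prime) (hkq : k < q) (hN : 1 ≤ N)
    (ht : 0 < t) (hm : 1 ≤ m) (hmq : m ^ 8 ≤ q) (hlam : 1 ≤ lam) (hA : MeasurableSet A)
    (hAt : ∀ a ∈ A, t ≤ ‖u (q * N) a‖) (hAm : Cnt (H k q k) A m) (j l : ℕ) (T : ℝ) (hT : 0 < T)
    (hT2 : T ^ 2 = 4 ^ j * (lam * t ^ 2) / 4) :
    ((q : ℝ) * N) ^ (KN k) * t ^ (2 * KN k) *
      volume.real (Pj q N A (4 ^ j * (lam * t ^ 2)) T l) ≤
      (4 * (Nat.factorial k : ℝ) * 4 ^ k * 4 ^ (KN k) * CW + CW * 4 ^ (KN k) * (4 * k) ^ 3) *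
        ((1 / 2) ^ l * (1 / 2) ^ j * (1 / lam ^ (KN k - k) + 1 / q)) := by
  have hK6 : 6 ≤ KN k := by
    unfold KN
    have : 12 ≤ k * (k + 1) := by nlinarith
    omega
  have hKk : k + 1 ≤ KN k := by
    unfold KN
    have h1 : 2 * (k + 1) ≤ k * (k + 1) := Nat.mul_le_mul_right _ (by omega)
    omega
  have hq0 : (0 : ℝ) < q := by exact_mod_cast hq.pos
  have hq1 : (1 : ℝ) ≤ q := by exact_mod_cast hq.one_le
  have hN0 : (0 : ℝ) < N := by exact_mod_cast hN
  have hkr : (3 : ℝ) ≤ k := by exact_mod_cast hk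
  have hm0 : 0 < m := by linarith
  have hlam0 : 0 < lam := by linarith
  set K : ℕ := KN k with hKdef
  set A' := Pj q N A (4 ^ j * (lam * t ^ 2)) T l with hA'
  set E := Ev k N (2 ^ l * T) with hE
  have hA'm : MeasurableSet A' := meas_Pj q N hA _ _ _
  have hEm : MeasurableSet E := meas_Ev k N _
  have hsub : A' ⊆ A := fun a ha => ha.1
  have hA'k : Cnt (H k q k) A' m := fun Y hY hYY => hAm Y (fun y hy => hsub (hY y hy)) hYY
  have hA'h : ∀ a ∈ A', (1 / 8 : ℝ) ^ l / 2 ≤ hd q E a := fun a ha => ha.2.2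
  -- the weak type estimate
  set W : ℝ := (N : ℝ) ^ K * t ^ (2 * K) * volume.real E with hW
  have hW0 : 0 ≤ W := by positivity
  set D : ℝ := 4 ^ j * lam with hD
  have hD1 : 1 ≤ D := by
    have : (1 : ℝ) ≤ 4 ^ j := one_le_pow₀ (by norm_num)
    nlinarith
  have hD0 : 0 < D := by linarith
  have hWle : W * ((4 ^ l) ^ K * D ^ K) ≤ CW * 4 ^ K := by
    have h1 := hWT N (2 ^ l * T) hN (by positivity)
    have h2 : (2 ^ l * T) ^ (2 * K) = ((4 : ℝ) ^ l) ^ K * D ^ K * t ^ (2 * K) / 4 ^ K := by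
      rw [pow_mul, mul_pow, hT2]
      have h3 : ((2 : ℝ) ^ l) ^ 2 = 4 ^ l := by
        rw [← pow_mul, mul_comm l 2, pow_mul]
        norm_num
      rw [h3]
      have h4 : (4 : ℝ) ^ l * (4 ^ j * (lam * t ^ 2) / 4) = 4 ^ l * D * t ^ 2 / 4 := by
        rw [hD]; ring
      rw [h4, div_pow, mul_pow, mul_pow, pow_mul t 2 K]
    rw [h2] at h1
    have h5 : (N : ℝ) ^ K * (((4 : ℝ) ^ l) ^ K * D ^ K * t ^ (2 * K) / 4 ^ K) *
        volume.real {a : X k | 2 ^ l * T ≤ ‖u N a‖} = W * ((4 ^ l) ^ K * D ^ K) / 4 ^ K := by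
      rw [hW, hE]
      unfold Ev
      ring
    rw [h5, div_le_iff₀ (by positivity)] at h1
    exact h1
  have hWle' : W ≤ CW * 4 ^ K / ((4 ^ l) ^ K * D ^ K) := by
    rw [le_div_iff₀ (by positivity)]
    exact hWle
  have h8 : (8 : ℝ) ^ l ≥ 1 := one_le_pow₀ (by norm_num)
  have hlamK : 0 < lam ^ (K - k) := by positivity
  have hgoal : ∀ x : ℝ, 0 ≤ x → ((q : ℝ) * N) ^ K * t ^ (2 * K) * x =
      (N : ℝ) ^ K * t ^ (2 * K) * ((q : ℝ) ^ K * x) := by
    intro x _
    rw [mul_pow]; ring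
  rw [hgoal _ measureReal_nonneg]
  have hfac : (1 : ℝ) ≤ (Nat.factorial k : ℝ) := by
    exact_mod_cast Nat.one_le_iff_ne_zero.2 (Nat.factorial_ne_zero k)
  by_cases hcase : 2 * k * m ≤ (1 / 8 : ℝ) ^ l / 2 * q
  · -- first case
    set ν : ℝ := (Nat.factorial k : ℝ) * (4 * D) ^ k with hν
    have hν1 : 1 ≤ ν := by
      have : (1 : ℝ) ≤ (4 * D) ^ k := one_le_pow₀ (by linarith)
      rw [hν]
      nlinarith
    have hA'1 : Cnt (H k q 1) A' ν := by
      intro Y hY hYY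
      rcases Y.eq_empty_or_nonempty with h | ⟨a, ha⟩
      · rw [h]
        simp only [Finset.card_empty, Nat.cast_zero]
        linarith
      · have h1 := hNWT k q N t a Y (by omega) hq hkq hN ht (fun y hy =>
          ⟨hYY y hy a ha, hAt y (hsub (hY y hy))⟩)
        refine h1.trans ?_
        rw [hν]
        refine mul_le_mul_of_nonneg_left ?_ (by positivity)
        have h2 := (hY a ha).2.1
        have hV0 : 0 ≤ VD q N a := by unfold VD; positivity
        refine pow_le_pow_left₀ (by positivity) ?_ k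
        rw [div_le_iff₀ (by positivity), hD]
        linarith
    have h1 := hTPU k q A' E ν m ((1 / 8 : ℝ) ^ l / 2) (by omega) hq hkq hA'm hEm hν1 hm
      (by positivity) hA'k hA'1 hA'h hcase
    have h2 : (N : ℝ) ^ K * t ^ (2 * K) * ((q : ℝ) ^ K * volume.real A') ≤
        4 * 8 ^ l * ν * W := by
      calc _ ≤ (N : ℝ) ^ K * t ^ (2 * K) *
            (2 / ((1 / 8 : ℝ) ^ l / 2) * ν * volume.real E) :=
            mul_le_mul_of_nonneg_left h1 (by positivity)
        _ = 4 * 8 ^ l * ν * W := by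
            have h3 : (2 : ℝ) / ((1 / 8 : ℝ) ^ l / 2) = 4 * 8 ^ l := by
              rw [div_pow, one_pow]
              field_simp
              norm_num
            rw [h3, hW]
            ring
    have h3 : 4 * 8 ^ l * ν * W ≤ (4 * (Nat.factorial k : ℝ) * 4 ^ k * 4 ^ K * CW) *
        ((1 / 2) ^ l * (1 / 2) ^ j * (1 / lam ^ (K - k))) := by
      have h4 : 4 * 8 ^ l * ν * W ≤ 4 * 8 ^ l * ν * (CW * 4 ^ K / ((4 ^ l) ^ K * D ^ K)) :=
        mul_le_mul_of_nonneg_left hWle' (by positivity)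
      refine h4.trans ?_
      have h5 : D ^ K = D ^ k * D ^ (K - k) := by
        rw [← pow_add]; congr 1; omega
      have h6 : 4 * 8 ^ l * ν * (CW * 4 ^ K / ((4 ^ l) ^ K * D ^ K)) =
          (4 * (Nat.factorial k : ℝ) * 4 ^ k * 4 ^ K * CW) *
            ((8 : ℝ) ^ l / (4 ^ l) ^ K * (1 / D ^ (K - k))) := by
        rw [h5, hν, mul_pow]
        field_simp
      rw [h6]
      refine mul_le_mul_of_nonneg_left ?_ (by positivity)
      have h7 : (8 : ℝ) ^ l / (4 ^ l) ^ K ≤ (1 / 2) ^ l := by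
        rw [div_le_iff₀ (by positivity)]
        have h9 : ((4 : ℝ) ^ l) ^ 2 ≤ (4 ^ l) ^ K :=
          pow_le_pow_right₀ (one_le_pow₀ (by norm_num)) (by omega)
        have h10 : (1 / 2 : ℝ) ^ l * ((4 : ℝ) ^ l) ^ 2 = 8 ^ l := by
          rw [← pow_mul, mul_comm l 2, pow_mul, ← mul_pow]
          norm_num
        calc (8 : ℝ) ^ l = (1 / 2 : ℝ) ^ l * ((4 : ℝ) ^ l) ^ 2 := h10.symm
          _ ≤ _ := mul_le_mul_of_nonneg_left h9 (by positivity)
      have h11 : 1 / D ^ (K - k) ≤ (1 / 2) ^ j * (1 / lam ^ (K - k)) := by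
        rw [hD, mul_pow, one_div, mul_inv, ← one_div, ← one_div]
        refine mul_le_mul_of_nonneg_right ?_ (by positivity)
        have h12 : (2 : ℝ) ^ j ≤ (4 ^ j) ^ (K - k) := by
          calc (2 : ℝ) ^ j ≤ 4 ^ j := pow_le_pow_left₀ (by norm_num) (by norm_num) j
            _ = (4 ^ j) ^ 1 := (pow_one _).symm
            _ ≤ (4 ^ j) ^ (K - k) :=
              pow_le_pow_right₀ (one_le_pow₀ (by norm_num)) (by omega)
        rw [div_pow, one_pow]
        exact one_div_le_one_div_of_le (by positivity) h12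
      calc (8 : ℝ) ^ l / (4 ^ l) ^ K * (1 / D ^ (K - k)) ≤
            (1 / 2) ^ l * ((1 / 2) ^ j * (1 / lam ^ (K - k))) :=
            mul_le_mul h7 h11 (by positivity) (by positivity)
        _ = _ := by ring
    refine h2.trans (h3.trans ?_)
    have h4 : 0 ≤ CW * 4 ^ K * (4 * (k : ℝ)) ^ 3 := by positivity
    have h5 : 0 ≤ (1 / 2 : ℝ) ^ l * (1 / 2) ^ j := by positivity
    have h6 : 0 ≤ (1 : ℝ) / q := by positivity
    have h7 : 0 ≤ 1 / lam ^ (K - k) := by positivity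
    refine mul_le_mul (by linarith) ?_ (by positivity) (by positivity)
    refine mul_le_mul_of_nonneg_left (by linarith) h5
  · -- second case
    push Not at hcase
    have hh : ∀ a ∈ A', 1 / (q : ℝ) ≤ hd q E a := by
      intro a ha
      have h1 := hA'h a ha
      have h2 : 0 < hd q E a := lt_of_lt_of_le (by positivity) h1
      unfold hd at h2 ⊢
      have h3 : 0 < ((pos q E a).card : ℝ) := by
        by_contra hcon
        push Not at hcon
        have : ((pos q E a).card : ℝ) / q ≤ 0 := div_nonpos_of_nonpos_of_nonneg hcon hq0.le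
        linarith
      have h4 : (1 : ℝ) ≤ ((pos q E a).card : ℝ) := by
        exact_mod_cast (Nat.cast_pos.1 h3 : 0 < (pos q E a).card)
      gcongr
    have h1 := hTPM k q A' E m (1 / q) (by omega) hq.one_le hA'm hEm hm (by positivity) hA'k hh
    have h2 : (N : ℝ) ^ K * t ^ (2 * K) * ((q : ℝ) ^ K * volume.real A') ≤ q * m * W := by
      calc _ ≤ (N : ℝ) ^ K * t ^ (2 * K) * (1 / (1 / (q : ℝ)) * m * volume.real E) :=
            mul_le_mul_of_nonneg_left h1 (by positivity)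
        _ = q * m * W := by
            rw [one_div_one_div, hW]
            ring
    have hq8 : (q : ℝ) < 4 * k * m * 8 ^ l := by
      have h3 : (1 / 8 : ℝ) ^ l = 1 / 8 ^ l := by rw [div_pow, one_pow]
      rw [h3] at hcase
      have h4 : (1 : ℝ) / 8 ^ l / 2 * q = q / (2 * 8 ^ l) := by
        field_simp
      rw [h4, div_lt_iff₀ (by positivity)] at hcase
      linarith
    have hm4 : m ^ 4 ≤ q := by
      have : m ^ 4 ≤ m ^ 8 := pow_le_pow_right₀ hm (by norm_num)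
      linarith
    have h3 : q * m * W ≤ (CW * 4 ^ K * (4 * k) ^ 3) *
        ((1 / 2) ^ l * (1 / 2) ^ j * (1 / q)) := by
      have h4 : q * m * W ≤ q * m * (CW * 4 ^ K / ((4 ^ l) ^ K * D ^ K)) :=
        mul_le_mul_of_nonneg_left hWle' (by positivity)
      refine h4.trans ?_
      have h6 : q * m * (CW * 4 ^ K / ((4 ^ l) ^ K * D ^ K)) =
          CW * 4 ^ K * (q * m / (4 ^ l) ^ K * (1 / D ^ K)) := by
        field_simp
      rw [h6]
      have h7 : q * m / (4 ^ l) ^ K ≤ (4 * k) ^ 3 * ((1 / 2) ^ l * (1 / q)) := by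
        have h9 : ((8 : ℝ) ^ l) ^ 4 ≤ (4 ^ l) ^ K := by
          have h10 : ((8 : ℝ) ^ l) ^ 4 = (4 ^ l) ^ 6 := by
            rw [← pow_mul, ← pow_mul, mul_comm l 4, mul_comm l 6, pow_mul, pow_mul]
            norm_num
          rw [h10]
          exact pow_le_pow_right₀ (one_le_pow₀ (by norm_num)) hK6
        have h10 : (q : ℝ) ^ 3 ≤ (4 * k * m * 8 ^ l) ^ 3 := pow_le_pow_left₀ hq0.le hq8.le 3
        have h11 : (q : ℝ) ^ 2 * m ≤ (4 * k) ^ 3 * (8 ^ l) ^ 3 := by
          have h12 : (q : ℝ) * (q ^ 2 * m) ≤ q * ((4 * k) ^ 3 * (8 ^ l) ^ 3) := by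
            calc (q : ℝ) * (q ^ 2 * m) = q ^ 3 * m := by ring
              _ ≤ (4 * k * m * 8 ^ l) ^ 3 * m := mul_le_mul_of_nonneg_right h10 hm0.le
              _ = m ^ 4 * ((4 * k) ^ 3 * (8 ^ l) ^ 3) := by ring
              _ ≤ q * ((4 * k) ^ 3 * (8 ^ l) ^ 3) :=
                mul_le_mul_of_nonneg_right hm4 (by positivity)
          exact le_of_mul_le_mul_left h12 hq0
        have h13 : (1 / 2 : ℝ) ^ l ≥ 1 / 8 ^ l := by
          rw [div_pow, one_pow]
          exact one_div_le_one_div_of_le (by positivity)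
            (pow_le_pow_left₀ (by norm_num) (by norm_num) l)
        calc q * m / (4 ^ l) ^ K ≤ q * m / ((8 : ℝ) ^ l) ^ 4 := by gcongr
          _ = (q ^ 2 * m) / (((8 : ℝ) ^ l) ^ 4 * q) := by
              field_simp
          _ ≤ ((4 * k) ^ 3 * (8 ^ l) ^ 3) / (((8 : ℝ) ^ l) ^ 4 * q) := by gcongr
          _ = (4 * k) ^ 3 * (1 / 8 ^ l * (1 / q)) := by
              field_simp
          _ ≤ (4 * k) ^ 3 * ((1 / 2) ^ l * (1 / q)) := by gcongr
      have h11 : 1 / D ^ K ≤ (1 / 2) ^ j := by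
        have h12 : (2 : ℝ) ^ j ≤ D ^ K := by
          calc (2 : ℝ) ^ j ≤ 4 ^ j := pow_le_pow_left₀ (by norm_num) (by norm_num) j
            _ ≤ D := by
              rw [hD]
              have : (0 : ℝ) ≤ 4 ^ j := by positivity
              nlinarith
            _ = D ^ 1 := (pow_one _).symm
            _ ≤ D ^ K := pow_le_pow_right₀ hD1 (by omega)
        rw [div_pow, one_pow]
        exact one_div_le_one_div_of_le (by positivity) h12
      calc CW * 4 ^ K * (q * m / (4 ^ l) ^ K * (1 / D ^ K)) ≤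
            CW * 4 ^ K * (((4 * k) ^ 3 * ((1 / 2) ^ l * (1 / q))) * (1 / 2) ^ j) := by
            refine mul_le_mul_of_nonneg_left ?_ (by positivity)
            exact mul_le_mul h7 h11 (by positivity) (by positivity)
        _ = _ := by ring
    refine h2.trans (h3.trans ?_)
    have h4 : 0 ≤ 4 * (Nat.factorial k : ℝ) * 4 ^ k * 4 ^ K * CW := by positivity
    have h5 : 0 ≤ (1 / 2 : ℝ) ^ l * (1 / 2) ^ j := by positivity
    have h6 : 0 ≤ (1 : ℝ) / q := by positivity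
    have h7 : 0 ≤ 1 / lam ^ (K - k) := by positivity
    refine mul_le_mul (by linarith) ?_ (by positivity) (by positivity)
    refine mul_le_mul_of_nonneg_left (by linarith) h5

theorem pf_MVV (hNWT : T_NWT) (hTPU : T_TPU) (hTPM : T_TPM) (hWT : L_WT) : T_MVV := by
  intro k hk
  obtain ⟨CW, hCW, hWT'⟩ := hWT k hk
  set C₂ : ℝ := 4 * (Nat.factorial k : ℝ) * 4 ^ k * 4 ^ (KN k) * CW +
    CW * 4 ^ (KN k) * (4 * k) ^ 3 with hC₂
  have hkr : (3 : ℝ) ≤ k := by exact_mod_cast hk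
  have hC₂0 : 1 ≤ C₂ := by
    have h1 : (1 : ℝ) ≤ 4 ^ (KN k) := one_le_pow₀ (by norm_num)
    have h2 : (1 : ℝ) ≤ (4 * k) ^ 3 := one_le_pow₀ (by linarith)
    have h3 : 0 ≤ 4 * (Nat.factorial k : ℝ) * 4 ^ k * 4 ^ (KN k) * CW := by positivity
    have h4 : 1 ≤ CW * 4 ^ (KN k) := by nlinarith
    have h5 : 1 ≤ CW * 4 ^ (KN k) * (4 * k) ^ 3 := by nlinarith
    linarith
  refine ⟨4 * C₂, by linarith, ?_⟩
  intro q N t m lam A hq hkq hN ht hm hmq hlam hA hAt hAm
  have hq0 : (0 : ℝ) < q := by exact_mod_cast hq.pos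
  have hlam0 : 0 < lam := by linarith
  obtain ⟨J, hJ⟩ := pow_unbounded_of_one_lt (2 / t) (by norm_num : (1 : ℝ) < 2)
  have hJt : 2 < 2 ^ J * t := by
    rw [div_lt_iff₀ ht] at hJ
    exact hJ
  set r : ℝ := Real.sqrt lam * t with hr
  have hr0 : 0 < r := by rw [hr]; positivity
  have hr2 : r ^ 2 = lam * t ^ 2 := by
    rw [hr, mul_pow, Real.sq_sqrt hlam0.le]
  have hrt : t ≤ r := by
    have : 1 ≤ Real.sqrt lam := Real.one_le_sqrt.2 hlam
    rw [hr]
    nlinarith
  set T : ℕ → ℝ := fun j => 2 ^ j * r / 2 with hT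
  have hT0 : ∀ j, 0 < T j := fun j => by rw [hT]; positivity
  have hT2 : ∀ j, T j ^ 2 = 4 ^ j * (lam * t ^ 2) / 4 := by
    intro j
    simp only [hT]
    rw [div_pow, mul_pow, hr2, ← pow_mul, mul_comm j 2, pow_mul]
    norm_num
  have hcov : {a : X k | a ∈ A ∧ lam * t ^ 2 ≤ VD q N a} ⊆
      ⋃ p ∈ range J ×ˢ range J, Pj q N A (4 ^ p.1 * (lam * t ^ 2)) (T p.1) p.2 := by
    rintro a ⟨haA, haV⟩
    have hs0 : 0 < lam * t ^ 2 := by positivity
    obtain ⟨j, hj1, hj2⟩ := exists_nat_pow_near (x := VD q N a / (lam * t ^ 2)) (y := (4 : ℝ))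
      (by rw [le_div_iff₀ hs0, one_mul]; exact haV) (by norm_num)
    rw [le_div_iff₀ hs0] at hj1
    rw [div_lt_iff₀ hs0] at hj2
    have hjJ : j < J := by
      by_contra hcon
      push Not at hcon
      have h1 : (2 : ℝ) ^ J ≤ 2 ^ j := pow_le_pow_right₀ (by norm_num) hcon
      have h2 : 2 < 2 ^ j * r := by
        calc (2 : ℝ) < 2 ^ J * t := hJt
          _ ≤ 2 ^ j * r := mul_le_mul h1 hrt ht.le (by positivity)
      have h3 : (2 ^ j * r) ^ 2 = 4 ^ j * (lam * t ^ 2) := by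
        rw [mul_pow, hr2, ← pow_mul, mul_comm j 2, pow_mul]
        norm_num
      have h4 := VD_le q N hN a
      nlinarith
    have hV4 : 4 * T j ^ 2 ≤ VD q N a := by
      rw [hT2 j]
      linarith
    obtain ⟨l, hl, hl2⟩ := some_level q N J hq.one_le hN (T j) (hT0 j) (by
      have h1 : (1 : ℝ) ≤ 2 ^ j := one_le_pow₀ (by norm_num)
      have h2 : 2 ^ J * T j = 2 ^ j * (2 ^ J * r) / 2 := by
        simp only [hT]; ring
      rw [h2]
      have h3 : 2 ^ J * t ≤ 2 ^ J * r := mul_le_mul_of_nonneg_left hrt (by positivity)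
      have h4 : 0 < (2 : ℝ) ^ J * r := by positivity
      nlinarith) a hV4
    simp only [Set.mem_iUnion]
    refine ⟨(j, l), Finset.mem_product.2 ⟨Finset.mem_range.2 hjJ, Finset.mem_range.2 hl⟩,
      haA, ?_, hl2⟩
    rw [pow_succ] at hj2
    show VD q N a < 4 * (4 ^ j * (lam * t ^ 2))
    linarith
  have hvol : volume.real {a : X k | a ∈ A ∧ lam * t ^ 2 ≤ VD q N a} ≤
      ∑ p ∈ range J ×ˢ range J, volume.real (Pj q N A (4 ^ p.1 * (lam * t ^ 2)) (T p.1) p.2) :=
    (measureReal_mono hcov (measure_ne_top _ _)).trans (measureReal_biUnion_finset_le _ _)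
  set S : ℝ := 1 / lam ^ (KN k - k) + 1 / q with hS
  have hS0 : 0 ≤ S := by positivity
  calc ((q : ℝ) * N) ^ (KN k) * t ^ (2 * KN k) *
        volume.real {a : X k | a ∈ A ∧ lam * t ^ 2 ≤ VD q N a}
      ≤ ((q : ℝ) * N) ^ (KN k) * t ^ (2 * KN k) * ∑ p ∈ range J ×ˢ range J,
        volume.real (Pj q N A (4 ^ p.1 * (lam * t ^ 2)) (T p.1) p.2) :=
        mul_le_mul_of_nonneg_left hvol (by positivity)
    _ = ∑ p ∈ range J ×ˢ range J, ((q : ℝ) * N) ^ (KN k) * t ^ (2 * KN k) *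
        volume.real (Pj q N A (4 ^ p.1 * (lam * t ^ 2)) (T p.1) p.2) := Finset.mul_sum _ _ _
    _ ≤ ∑ p ∈ range J ×ˢ range J, C₂ * ((1 / 2) ^ p.2 * (1 / 2) ^ p.1 * S) := by
        refine Finset.sum_le_sum fun p _ => ?_
        exact one_piece hNWT hTPU hTPM hk CW hCW hWT' q N t m lam A hq hkq hN ht hm hmq hlam hA
          hAt hAm p.1 p.2 (T p.1) (hT0 p.1) (hT2 p.1)
    _ = C₂ * S * ((∑ j ∈ range J, ((1 : ℝ) / 2) ^ j) * ∑ l ∈ range J, ((1 : ℝ) / 2) ^ l) := by
        rw [Finset.sum_product, Finset.sum_mul_sum, Finset.mul_sum]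
        refine Finset.sum_congr rfl fun j _ => ?_
        rw [Finset.mul_sum]
        refine Finset.sum_congr rfl fun l _ => ?_
        ring
    _ ≤ C₂ * S * (2 * 2) := by
        have h1 := (geo2_le J).le
        have h2 : 0 ≤ ∑ j ∈ range J, ((1 : ℝ) / 2) ^ j :=
          Finset.sum_nonneg fun _ _ => by positivity
        refine mul_le_mul_of_nonneg_left (mul_le_mul h1 h1 h2 (by norm_num)) (by positivity)
    _ = 4 * C₂ * S := by ring

end Pool.Agent.H30.EST
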